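import Pool.Agent.H343R2.Gauss
import Pool.Agent.Y752.QF.Stm

/-!
# Job QF-CC2: the autocorrelation of a primitive character
-/

set_option autoImplicit false

namespace Pool.Agent.Y68.QF

open Finset Complex

/-- the Ramanujan sum as an autocorrelation -/
theorem corr_eq (q : ℕ) [NeZero q] (χ : DirichletCharacter ℂ q) (hχ : χ.IsPrimitive)
    (r : ZMod q) :
    ∑ n : ZMod q, χ (n + r) * (starRingEnd ℂ) (χ n) =
      ∑ a : ZMod q, (if IsUnit a then (1 : ℂ) else 0) * ZMod.stdAddChar (-(a * r)) := by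
  classical
  set τ := gaussSum χ (ZMod.stdAddChar : AddChar (ZMod q) ℂ) with hτ
  have hτn : ‖τ‖ ^ 2 = q := Pool.Agent.Helper112.MLS.norm_gauss q hχ
  have hτ2 : τ * (starRingEnd ℂ) τ = q := by
    rw [Complex.mul_conj, Complex.normSq_eq_norm_sq, hτn]
    norm_cast
  have hq : (q : ℂ) ≠ 0 := by exact_mod_cast NeZero.ne q
  have h1 : ∀ n : ZMod q, ∑ a : ZMod q, χ a * ZMod.stdAddChar (n * a) = χ⁻¹ n * τ := by
    intro n
    rw [hτ, ← gaussSum_mulShift_of_isPrimitive _ hχ n]
    rfl
  have h2 : ∀ n : ZMod q, χ⁻¹ n * (starRingEnd ℂ) (χ⁻¹ n) = if IsUnit n then 1 else 0 := by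
    intro n
    split_ifs with h
    · rw [Complex.mul_conj, Complex.normSq_eq_norm_sq, Pool.Agent.Helper112.MLS.norm_char, if_pos h]
      norm_num
    · rw [MulChar.map_nonunit _ h, zero_mul]
  have h3 : ∀ x : ZMod q, (starRingEnd ℂ) (ZMod.stdAddChar x : ℂ) = ZMod.stdAddChar (-x) := by
    intro x
    rw [AddChar.map_neg_eq_conj]
  have key : (q : ℂ) * ∑ n : ZMod q, χ (n + r) * (starRingEnd ℂ) (χ n) =
      q * ∑ a : ZMod q, (if IsUnit a then (1 : ℂ) else 0) * ZMod.stdAddChar (-(a * r)) := by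
    calc (q : ℂ) * ∑ n : ZMod q, χ (n + r) * (starRingEnd ℂ) (χ n)
        = ∑ c : ZMod q, ∑ b : ZMod q, χ b * (starRingEnd ℂ) (χ c) *
            ∑ a : ZMod q, ZMod.stdAddChar (a * (b - c - r)) := by
          rw [mul_sum]
          refine sum_congr rfl fun c _ => ?_
          rw [Finset.sum_eq_single (c + r)]
          · have : c + r - c - r = 0 := by ring
            rw [this]
            simp [ZMod.card]
            ring
          · intro b _ hb
            have h4 : b - c - r ≠ 0 := by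
              intro h
              apply hb
              have : b = c + r := by linear_combination h
              exact this
            have h5 : ∑ a : ZMod q, (ZMod.stdAddChar (a * (b - c - r)) : ℂ) = 0 := by
              have := AddChar.sum_eq_zero_of_ne_one (ZMod.isPrimitive_stdAddChar q h4)
              rw [← this]
              refine sum_congr rfl fun a _ => ?_
              rw [AddChar.mulShift_apply, mul_comm]
            rw [h5, mul_zero]
          · intro h; exact absurd (mem_univ _) h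
      _ = ∑ a : ZMod q, (∑ b : ZMod q, χ b * ZMod.stdAddChar (a * b)) *
            (starRingEnd ℂ) (∑ c : ZMod q, χ c * ZMod.stdAddChar (a * c)) *
            ZMod.stdAddChar (-(a * r)) := by
          simp_rw [mul_sum]
          have e1 : ∀ c b : ZMod q, ∑ a : ZMod q, χ b * (starRingEnd ℂ) (χ c) *
              (ZMod.stdAddChar (a * (b - c - r)) : ℂ) = ∑ a : ZMod q,
              (χ b * ZMod.stdAddChar (a * b)) * (starRingEnd ℂ) (χ c * ZMod.stdAddChar (a * c)) *
              ZMod.stdAddChar (-(a * r)) := by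
            intro c b
            refine sum_congr rfl fun a _ => ?_
            rw [map_mul (starRingEnd ℂ), h3]
            have : a * (b - c - r) = a * b + -(a * c) + -(a * r) := by ring
            rw [this, AddChar.map_add_eq_mul, AddChar.map_add_eq_mul]
            ring
          simp_rw [e1]
          rw [Finset.sum_comm]
          have e2 : ∀ b : ZMod q, ∑ c : ZMod q, ∑ a : ZMod q,
              (χ b * ZMod.stdAddChar (a * b)) * (starRingEnd ℂ) (χ c * ZMod.stdAddChar (a * c)) *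
              (ZMod.stdAddChar (-(a * r)) : ℂ) = ∑ a : ZMod q, ∑ c : ZMod q,
              (χ b * ZMod.stdAddChar (a * b)) * (starRingEnd ℂ) (χ c * ZMod.stdAddChar (a * c)) *
              (ZMod.stdAddChar (-(a * r)) : ℂ) := fun b => Finset.sum_comm
          rw [Finset.sum_congr rfl fun b _ => e2 b, Finset.sum_comm]
          refine sum_congr rfl fun a _ => ?_
          rw [map_sum, sum_mul_sum, sum_mul]
          refine sum_congr rfl fun b _ => ?_
          rw [sum_mul]
      _ = _ := by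
          rw [mul_sum]
          refine sum_congr rfl fun a _ => ?_
          rw [h1, map_mul]
          have : χ⁻¹ a * τ * ((starRingEnd ℂ) (χ⁻¹ a) * (starRingEnd ℂ) τ) =
            (χ⁻¹ a * (starRingEnd ℂ) (χ⁻¹ a)) * (τ * (starRingEnd ℂ) τ) := by ring
          rw [this, h2, hτ2]
          ring
  exact mul_left_cancel₀ hq key

theorem inner_bound (q d k r : ℕ) [NeZero q] (hq : q = d * k) (hk : 1 ≤ k) :
    ‖∑ b ∈ (range q).filter (fun b => d ∣ b),
      (ZMod.stdAddChar (-((b : ZMod q) * (r : ZMod q))) : ℂ)‖ ≤ if k ∣ r then (k : ℝ) else 0 := by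
  have hq0 := NeZero.ne q
  have hd : 1 ≤ d := by
    rcases Nat.eq_zero_or_pos d with h | h
    · rw [h, zero_mul] at hq; exact absurd hq hq0
    · exact h
  have h1 : ∑ b ∈ (range q).filter (fun b => d ∣ b),
      (ZMod.stdAddChar (-((b : ZMod q) * (r : ZMod q))) : ℂ) =
      ∑ j ∈ range k, (ZMod.stdAddChar (-((d : ZMod q) * (r : ZMod q))) : ℂ) ^ j := by
    have h2 := H343.Gauss.sum_multiples d k hd
      (fun b => (ZMod.stdAddChar (-((b : ZMod q) * (r : ZMod q))) : ℂ))
    rw [← hq] at h2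
    rw [h2]
    refine sum_congr rfl fun j _ => ?_
    rw [← AddChar.map_nsmul_eq_pow]
    congr 1
    push_cast
    rw [nsmul_eq_mul]
    ring
  rw [h1]
  set w : ℂ := ZMod.stdAddChar (-((d : ZMod q) * (r : ZMod q))) with hw
  have hwk : w ^ k = 1 := by
    rw [hw, ← AddChar.map_nsmul_eq_pow]
    have : k • (-((d : ZMod q) * (r : ZMod q))) = 0 := by
      rw [nsmul_eq_mul]
      have h3 : ((d * k : ℕ) : ZMod q) = 0 := by rw [← hq]; simp
      push_cast at h3
      linear_combination (-(r : ZMod q)) * h3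
    rw [this, AddChar.map_zero_eq_one]
  by_cases h : w = 1
  · have h4 : k ∣ r := by
      have h5 : -((d : ZMod q) * (r : ZMod q)) = 0 := by
        apply ZMod.injective_stdAddChar
        rw [AddChar.map_zero_eq_one]
        exact h
      rw [neg_eq_zero] at h5
      have h6 : ((d * r : ℕ) : ZMod q) = 0 := by push_cast; exact h5
      rw [ZMod.natCast_eq_zero_iff, hq] at h6
      exact Nat.dvd_of_mul_dvd_mul_left hd h6
    rw [if_pos h4, h]
    simp
  · have h5 : ∑ j ∈ range k, w ^ j = 0 := by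
      have := geom_sum_eq h k
      rw [this, hwk]
      simp
    rw [h5, norm_zero]
    split_ifs <;> positivity

/-- the bound for Ramanujan sums -/
theorem raman_bound (q r : ℕ) [NeZero q] :
    ‖∑ a : ZMod q, (if IsUnit a then (1 : ℂ) else 0) * ZMod.stdAddChar (-(a * (r : ZMod q)))‖ ≤
      ∑ d ∈ (Nat.gcd q r).divisors, (d : ℝ) := by
  classical
  have hq0 := NeZero.ne q
  have hq1 : 1 ≤ q := Nat.one_le_iff_ne_zero.2 hq0
  rw [← H343.Gauss.sum_range_eq q (fun a => (if IsUnit a then (1 : ℂ) else 0) *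
    ZMod.stdAddChar (-(a * (r : ZMod q))))]
  have h1 : ∑ b ∈ range q, (if IsUnit (b : ZMod q) then (1 : ℂ) else 0) *
      ZMod.stdAddChar (-((b : ZMod q) * (r : ZMod q))) =
      ∑ d ∈ q.divisors, ((ArithmeticFunction.moebius d : ℤ) : ℂ) *
        ∑ b ∈ (range q).filter (fun b => d ∣ b),
          ZMod.stdAddChar (-((b : ZMod q) * (r : ZMod q))) := by
    have e1 : ∀ b : ℕ, (if IsUnit (b : ZMod q) then (1 : ℂ) else 0) =
        ∑ d ∈ q.divisors.filter (fun d => d ∣ b), ((ArithmeticFunction.moebius d : ℤ) : ℂ) := by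
      intro b
      rw [← H343.Gauss.coprime_indicator b q hq1]
      simp only [ZMod.isUnit_iff_coprime]
    simp_rw [e1, sum_filter, sum_mul, mul_sum]
    rw [sum_comm]
    refine sum_congr rfl fun d _ => ?_
    refine sum_congr rfl fun b _ => ?_
    split_ifs <;> simp
  rw [h1]
  refine (norm_sum_le _ _).trans ?_
  have h2 : ∀ d ∈ q.divisors, ‖((ArithmeticFunction.moebius d : ℤ) : ℂ) *
        ∑ b ∈ (range q).filter (fun b => d ∣ b),
          (ZMod.stdAddChar (-((b : ZMod q) * (r : ZMod q))) : ℂ)‖ ≤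
        if (q / d) ∣ r then ((q / d : ℕ) : ℝ) else 0 := by
    intro d hd
    rw [Nat.mem_divisors] at hd
    have h3 : q = d * (q / d) := (Nat.mul_div_cancel' hd.1).symm
    have h4 : 1 ≤ q / d := Nat.div_pos (Nat.le_of_dvd hq1 hd.1) (Nat.pos_of_dvd_of_pos hd.1 hq1)
    have h5 := inner_bound q d (q / d) r h3 h4
    rw [norm_mul]
    have h6 : ‖((ArithmeticFunction.moebius d : ℤ) : ℂ)‖ ≤ 1 := by
      rw [Complex.norm_intCast]
      exact_mod_cast ArithmeticFunction.abs_moebius_le_one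
    calc _ ≤ 1 * _ := mul_le_mul_of_nonneg_right h6 (norm_nonneg _)
      _ = _ := one_mul _
      _ ≤ _ := h5
  refine (sum_le_sum h2).trans ?_
  rw [Nat.sum_div_divisors q (fun k => if k ∣ r then ((k : ℕ) : ℝ) else 0), ← sum_filter]
  refine le_of_eq (sum_congr ?_ fun _ _ => rfl)
  ext k
  rw [mem_filter, Nat.mem_divisors, Nat.mem_divisors]
  constructor
  · rintro ⟨⟨h3, _⟩, h4⟩
    exact ⟨Nat.dvd_gcd h3 h4, Nat.gcd_ne_zero_left hq0⟩
  · rintro ⟨h3, _⟩
    exact ⟨⟨h3.trans (Nat.gcd_dvd_left _ _), hq0⟩, h3.trans (Nat.gcd_dvd_right _ _)⟩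

/-- sums of periodic functions over intervals -/
theorem sum_periodic (q : ℕ) [NeZero q] (f : ZMod q → ℂ) (A m : ℕ) :
    ∑ n ∈ Ioc A (A + q * m), f (n : ZMod q) = m * ∑ a : ZMod q, f a := by
  induction m with
  | zero => simp
  | succ m ih =>
    have h1 : Ioc A (A + q * (m + 1)) = Ioc A (A + q * m) ∪ Ioc (A + q * m) (A + q * m + q) := by
      rw [Ioc_union_Ioc_eq_Ioc (by omega) (by omega)]
      congr 1
      ring
    have h2 : Disjoint (Ioc A (A + q * m)) (Ioc (A + q * m) (A + q * m + q)) := by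
      rw [Finset.disjoint_left]
      intro x hx hx'
      rw [mem_Ioc] at hx hx'
      omega
    rw [h1, sum_union h2, ih]
    have h3 : ∑ n ∈ Ioc (A + q * m) (A + q * m + q), f (n : ZMod q) = ∑ a : ZMod q, f a := by
      have h4 : ∑ n ∈ Ioc (A + q * m) (A + q * m + q), f (n : ZMod q) =
          ∑ b ∈ range q, f ((b + (A + q * m + 1) : ℕ) : ZMod q) := by
        symm
        refine sum_bij (fun b _ => b + (A + q * m + 1)) ?_ ?_ ?_ ?_
        · intro b hb
          rw [mem_range] at hb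
          rw [mem_Ioc]
          omega
        · intro a _ b _ h
          omega
        · intro b hb
          rw [mem_Ioc] at hb
          exact ⟨b - (A + q * m + 1), mem_range.2 (by omega), by omega⟩
        · intro b _
          rfl
      rw [h4]
      have h5 := H343.Gauss.sum_range_eq q (fun a => f (a + ((A + q * m + 1 : ℕ) : ZMod q)))
      have h6 : ∑ b ∈ range q, f ((b + (A + q * m + 1) : ℕ) : ZMod q) =
          ∑ b ∈ range q, f ((b : ZMod q) + ((A + q * m + 1 : ℕ) : ZMod q)) := by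
        refine sum_congr rfl fun b _ => ?_
        congr 1
        push_cast
        ring
      rw [h6, h5]
      exact Fintype.sum_equiv (Equiv.addRight ((A + q * m + 1 : ℕ) : ZMod q)) _ _ fun _ => rfl
    rw [h3]
    push_cast
    ring

/-- incomplete sums -/
theorem incomplete (q : ℕ) [NeZero q] (f : ZMod q → ℂ) (hf : ∀ a, ‖f a‖ ≤ 1) (D : ℝ)
    (hD : ‖∑ a : ZMod q, f a‖ ≤ D) (A B : ℕ) (hAB : A ≤ B) :
    ‖∑ n ∈ Ioc A B, f (n : ZMod q)‖ ≤ D / q * (B - A) + q := by
  have hq0 := NeZero.ne q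
  have hq1 : 1 ≤ q := Nat.one_le_iff_ne_zero.2 hq0
  have hq : (0 : ℝ) < q := by exact_mod_cast hq1
  have hD0 : 0 ≤ D := (norm_nonneg _).trans hD
  set m := (B - A) / q with hm
  set s := (B - A) % q with hs
  have hms : q * m + s = B - A := Nat.div_add_mod _ _
  have hsq : s < q := Nat.mod_lt _ hq1
  have h1 : Ioc A B = Ioc A (A + q * m) ∪ Ioc (A + q * m) B := by
    rw [Ioc_union_Ioc_eq_Ioc (by omega) (by omega)]
  have h2 : Disjoint (Ioc A (A + q * m)) (Ioc (A + q * m) B) := by
    rw [Finset.disjoint_left]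
    intro x hx hx'
    rw [mem_Ioc] at hx hx'
    omega
  rw [h1, sum_union h2, sum_periodic]
  refine (norm_add_le _ _).trans (add_le_add ?_ ?_)
  · rw [norm_mul, Complex.norm_natCast]
    have h3 : (m : ℝ) ≤ (B - A) / q := by
      rw [le_div_iff₀ hq]
      have h4 : m * q ≤ B - A := by
        rw [mul_comm]; omega
      have h5 : ((m * q : ℕ) : ℝ) ≤ ((B - A : ℕ) : ℝ) := by exact_mod_cast h4
      rw [Nat.cast_sub hAB] at h5
      push_cast at h5
      exact h5
    calc (m : ℝ) * ‖∑ a : ZMod q, f a‖ ≤ (B - A) / q * D :=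
          mul_le_mul h3 hD (norm_nonneg _) ((Nat.cast_nonneg m).trans h3)
      _ = _ := by ring
  · refine (norm_sum_le _ _).trans ?_
    refine (sum_le_sum fun n _ => hf _).trans ?_
    rw [sum_const, Nat.card_Ioc, nsmul_eq_mul, mul_one]
    have : B - (A + q * m) ≤ q := by omega
    exact_mod_cast this

theorem corr_bound (q : ℕ) [NeZero q] (χ : DirichletCharacter ℂ q) (hχ : χ.IsPrimitive)
    (r A B : ℕ) (hAB : A ≤ B) :
    ‖∑ n ∈ Ioc A B, χ (((n + r : ℕ)) : ZMod q) * (starRingEnd ℂ) (χ (n : ZMod q))‖ ≤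
      (∑ d ∈ (Nat.gcd q r).divisors, (d : ℝ)) / q * (B - A) + q := by
  have h1 := incomplete q (fun a => χ (a + (r : ZMod q)) * (starRingEnd ℂ) (χ a)) (by
    intro a
    rw [norm_mul, RCLike.norm_conj]
    exact mul_le_one₀ (χ.norm_le_one _) (norm_nonneg _) (χ.norm_le_one _))
    (∑ d ∈ (Nat.gcd q r).divisors, (d : ℝ))
    ((congrArg norm (corr_eq q χ hχ r)).le.trans (raman_bound q r)) A B hAB
  refine le_trans (le_of_eq ?_) h1
  congr 1
  refine sum_congr rfl fun n _ => ?_
  push_cast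
  rfl

theorem gcd_sum (q R : ℕ) (hq : 1 ≤ q) :
    ∑ r ∈ Finset.Icc 1 R, (∑ d ∈ (Nat.gcd q r).divisors, (d : ℝ)) / q ≤
      (q.divisors.card : ℝ) / q * R := by
  classical
  have hq0 : (0 : ℝ) < q := by exact_mod_cast hq
  have h1 : ∀ r : ℕ, ∑ d ∈ (Nat.gcd q r).divisors, (d : ℝ) =
      ∑ d ∈ q.divisors, if d ∣ r then (d : ℝ) else 0 := by
    intro r
    rw [← sum_filter]
    refine sum_congr ?_ fun _ _ => rfl
    ext k
    rw [mem_filter, Nat.mem_divisors, Nat.mem_divisors]
    constructor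
    · rintro ⟨h3, _⟩
      exact ⟨⟨h3.trans (Nat.gcd_dvd_left _ _), by omega⟩, h3.trans (Nat.gcd_dvd_right _ _)⟩
    · rintro ⟨⟨h3, _⟩, h4⟩
      exact ⟨Nat.dvd_gcd h3 h4, Nat.gcd_ne_zero_left (by omega)⟩
  rw [← sum_div]
  simp_rw [h1]
  rw [sum_comm]
  have h2 : ∀ d ∈ q.divisors, ∑ r ∈ Icc 1 R, (if d ∣ r then (d : ℝ) else 0) ≤ R := by
    intro d hd
    have hd1 : 1 ≤ d := Nat.pos_of_mem_divisors hd
    rw [← sum_filter, sum_const, nsmul_eq_mul]
    have h3 : ((Icc 1 R).filter (fun r => d ∣ r)).card = R / d := by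
      have h4 := Nat.Ioc_filter_dvd_card_eq_div R d
      rw [← h4]
      rfl
    rw [h3]
    exact_mod_cast Nat.div_mul_le_self R d
  calc _ ≤ (∑ d ∈ q.divisors, (R : ℝ)) / q :=
        div_le_div_of_nonneg_right (sum_le_sum h2) hq0.le
    _ = _ := by
      rw [sum_const, nsmul_eq_mul]
      ring

theorem CC2 : Pool.Agent.Y752.QF.S_CC2 := by
  intro p hp hprim r A B hAB
  have : NeZero p.1 := ⟨hp⟩
  exact corr_bound p.1 p.2 hprim r A B hAB

end Pool.Agent.Y68.QF
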